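import Pool.Agent.R499.Domb

set_option autoImplicit false

/-!
`∑_{n<m} (3n²+n) 16^{m-1-n} s_n = (m/2) ∑_{j+k=m} j k C(m,k)² C(2k,k) C(2j,j)`.
-/

namespace Pool.Agent.U853.DM

open Finset PowerSeries Pool.Agent.R499.Domb

noncomputable section

def g : ℚ⟦X⟧ := PowerSeries.mk fun n => 1 / (n.factorial : ℚ) ^ 2

def f : ℚ⟦X⟧ := PowerSeries.mk fun n => c n / (n.factorial : ℚ) ^ 2

theorem choose_cast (a b n : ℕ) (h : a + b = n) :
    (n.choose a : ℚ) = (n.factorial : ℚ) / ((a.factorial : ℚ) * (b.factorial : ℚ)) := by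
  subst h
  exact Nat.cast_add_choose ℚ

theorem g_sq : g * g = f := by
  ext n
  rw [coeff_mul]
  unfold g f
  simp only [coeff_mk]
  have hv := Nat.add_choose_eq n n n
  have hv' : c n = ∑ ij ∈ antidiagonal n, (n.choose ij.1 : ℚ) * (n.choose ij.2 : ℚ) := by
    unfold c Nat.centralBinom
    rw [two_mul, hv]
    push_cast
    rfl
  rw [hv', sum_div]
  refine sum_congr rfl fun p hp => ?_
  rw [HasAntidiagonal.mem_antidiagonal] at hp
  rw [choose_cast p.1 p.2 n hp, choose_cast p.2 p.1 n (by omega)]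
  have h1 : (p.1.factorial : ℚ) ≠ 0 := by positivity
  have h2 : (p.2.factorial : ℚ) ≠ 0 := by positivity
  have h3 : (n.factorial : ℚ) ≠ 0 := by positivity
  field_simp

/-- the square of the derivative of `g`, times `X` -/
theorem coeff_Xg (b : ℕ) : coeff b (X * (d⁄dX ℚ g * d⁄dX ℚ g)) = c b * b / ((b + 1) * (b.factorial : ℚ) ^ 2) := by
  rcases b with _ | k
  · simp
  · rw [coeff_succ_X_mul, coeff_mul]
    simp only [coeff_derivative]
    unfold g
    simp only [coeff_mk]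
    have hv := Nat.add_choose_eq (k + 1) (k + 1) k
    have hs : (2 * (k + 1)).choose (k + 1) * (k + 1) = (2 * (k + 1)).choose k * (2 * (k + 1) - k) :=
      Nat.choose_succ_right_eq _ _
    have hs' : c (k + 1) * ((k : ℚ) + 1) = ((2 * (k + 1)).choose k : ℚ) * (k + 2) := by
      unfold c Nat.centralBinom
      have := congrArg (Nat.cast : ℕ → ℚ) hs
      rw [Nat.cast_mul, Nat.cast_mul, Nat.cast_sub (by omega)] at this
      push_cast at this
      rw [this]; ring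
    have hv' : ((2 * (k + 1)).choose k : ℚ) = ∑ ij ∈ antidiagonal k, ((k + 1).choose ij.1 : ℚ) * ((k + 1).choose ij.2 : ℚ) := by
      rw [two_mul, hv]
      push_cast
      rfl
    push_cast
    rw [hs', hv', sum_mul, sum_div]
    refine sum_congr rfl fun p hp => ?_
    rw [HasAntidiagonal.mem_antidiagonal] at hp
    rw [choose_cast p.1 (p.2 + 1) (k + 1) (by omega), choose_cast p.2 (p.1 + 1) (k + 1) (by omega)]
    have h1 : (p.1.factorial : ℚ) ≠ 0 := by positivity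
    have h2 : (p.2.factorial : ℚ) ≠ 0 := by positivity
    have h3 : ((k + 1).factorial : ℚ) ≠ 0 := by positivity
    have h4 : ((p.1 : ℚ) + 1) ≠ 0 := by positivity
    have h5 : ((p.2 : ℚ) + 1) ≠ 0 := by positivity
    have h6 : ((k : ℚ) + 1 + 1) ≠ 0 := by positivity
    have h7 : ((k : ℚ) + 2) ≠ 0 := by positivity
    rw [Nat.factorial_succ p.1, Nat.factorial_succ p.2]
    push_cast
    field_simp
    ring

theorem f_der : d⁄dX ℚ f = 2 * (g * d⁄dX ℚ g) := by
  rw [← g_sq, Derivation.leibniz]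
  simp only [smul_eq_mul]
  ring

theorem coeff_Xf (b : ℕ) : coeff b (X * d⁄dX ℚ f) = b * (c b / (b.factorial : ℚ) ^ 2) := by
  rcases b with _ | k
  · simp
  · rw [coeff_succ_X_mul, coeff_derivative]
    unfold f
    rw [coeff_mk]
    push_cast
    ring

theorem main_ps : (X * d⁄dX ℚ f) * (X * d⁄dX ℚ f) = X * (4 * (f * (X * (d⁄dX ℚ g * d⁄dX ℚ g)))) := by
  rw [f_der, ← g_sq]
  ring

theorem t_fac (j k : ℕ) : t j k = ((k + j).factorial : ℚ) ^ 2 * (c k / (k.factorial : ℚ) ^ 2) * (c j / (j.factorial : ℚ) ^ 2) := by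
  unfold t
  rw [choose_cast k j (k + j) rfl]
  have h1 : (j.factorial : ℚ) ≠ 0 := by positivity
  have h2 : (k.factorial : ℚ) ≠ 0 := by positivity
  field_simp

theorem sum_id (N : ℕ) : ∑ p ∈ antidiagonal (N + 1), (p.1 : ℚ) * p.2 * t p.1 p.2 =
    4 * ((N : ℚ) + 1) ^ 2 * ∑ p ∈ antidiagonal N, t p.1 p.2 * ((p.2 : ℚ) / (p.2 + 1)) := by
  have h := congrArg (coeff (N + 1)) main_ps
  rw [coeff_succ_X_mul, show (4 : ℚ⟦X⟧) = C (4 : ℚ) from (map_ofNat C 4).symm, coeff_C_mul, coeff_mul, coeff_mul] at h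
  simp only [coeff_Xf, coeff_Xg] at h
  have e1 : ∑ p ∈ antidiagonal (N + 1), (p.1 : ℚ) * p.2 * t p.1 p.2 = ((N + 1).factorial : ℚ) ^ 2 *
      ∑ x ∈ antidiagonal (N + 1), (x.1 : ℚ) * (c x.1 / (x.1.factorial : ℚ) ^ 2) *
        ((x.2 : ℚ) * (c x.2 / (x.2.factorial : ℚ) ^ 2)) := by
    rw [mul_sum]
    refine sum_congr rfl fun p hp => ?_
    rw [HasAntidiagonal.mem_antidiagonal] at hp
    rw [t_fac, show p.2 + p.1 = N + 1 by omega]
    ring
  have e2 : ∑ p ∈ antidiagonal N, t p.1 p.2 * ((p.2 : ℚ) / (p.2 + 1)) = ((N).factorial : ℚ) ^ 2 *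
      ∑ x ∈ antidiagonal N, (coeff x.1) f * (c x.2 * (x.2 : ℚ) / (((x.2 : ℚ) + 1) * (x.2.factorial : ℚ) ^ 2)) := by
    rw [mul_sum]
    refine sum_congr rfl fun p hp => ?_
    rw [HasAntidiagonal.mem_antidiagonal] at hp
    rw [t_fac, show p.2 + p.1 = N by omega]
    unfold f
    rw [coeff_mk]
    have h1 : (p.1.factorial : ℚ) ≠ 0 := by positivity
    have h2 : (p.2.factorial : ℚ) ≠ 0 := by positivity
    have h5 : ((p.2 : ℚ) + 1) ≠ 0 := by positivity
    field_simp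
  rw [e1, h, e2, Nat.factorial_succ]
  push_cast
  ring

/-- **Closed form.** -/
theorem V_closed (m : ℕ) (hm : 1 ≤ m) :
    V m = (m : ℚ) / 2 * ∑ p ∈ antidiagonal m, (p.1 : ℚ) * p.2 * t p.1 p.2 := by
  obtain ⟨N, rfl⟩ : ∃ N, m = N + 1 := ⟨m - 1, by omega⟩
  rw [V_eq_U, sum_id]
  unfold U
  rw [mul_sum, mul_sum, mul_sum]
  refine sum_congr rfl fun p _ => ?_
  push_cast
  ring

end

end Pool.Agent.U853.DM
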