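import Pool.Agent.T2H53.HB.B2

set_option autoImplicit false

/-!
Harmonic sums up to `(p-1)/2` and the Fermat quotient of `2`.
-/

namespace Pool.Agent.U853.DM

open Finset Pool.Agent.R439.PL Pool.Agent.T2H53.HB

def hh (n : ℕ) : ℚ := ∑ j ∈ range n, 1 / ((j : ℚ) + 1)

def hq (n : ℕ) : ℚ := ∑ j ∈ range n, 1 / ((j : ℚ) + 1) ^ 2

theorem hh_succ (n : ℕ) : hh (n + 1) = hh n + 1 / ((n : ℚ) + 1) := by
  unfold hh; rw [sum_range_succ]

theorem hq_succ (n : ℕ) : hq (n + 1) = hq n + 1 / ((n : ℚ) + 1) ^ 2 := by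
  unfold hq; rw [sum_range_succ]

theorem sum_hh (n : ℕ) : ∑ i ∈ range n, hh i / ((i : ℚ) + 1) = (hh n ^ 2 - hq n) / 2 := by
  induction n with
  | zero => simp [hh, hq]
  | succ n ih =>
    rw [sum_range_succ, ih, hh_succ, hq_succ]
    have : ((n : ℚ) + 1) ≠ 0 := by positivity
    field_simp
    ring

/-- `∏_{j<k} (1 - n/(j+1))` -/
def Pi (n : ℚ) (k : ℕ) : ℚ := ∏ j ∈ range k, (1 - n / ((j : ℚ) + 1))

theorem Pi_succ (n : ℚ) (k : ℕ) : Pi n (k + 1) = Pi n k * (1 - n / ((k : ℚ) + 1)) := by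
  unfold Pi; rw [prod_range_succ]

/-- `C(n,k) = (-1)^k ∏ (1 - (n+1)/(j+1))` -/
theorem choose_Pi (n k : ℕ) : (n.choose k : ℚ) = (-1) ^ k * Pi ((n : ℚ) + 1) k := by
  induction k with
  | zero => simp [Pi]
  | succ k ih =>
    have h : n.choose (k + 1) * (k + 1) = n.choose k * (n - k) := Nat.choose_succ_right_eq _ _
    have h' : (n.choose (k + 1) : ℚ) * ((k : ℚ) + 1) = (n.choose k : ℚ) * ((n : ℚ) - k) := by
      rcases le_or_gt k n with hk | hk
      · have := congrArg (Nat.cast : ℕ → ℚ) h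
        rw [Nat.cast_mul, Nat.cast_mul, Nat.cast_sub hk] at this
        push_cast at this
        exact this
      · rw [Nat.choose_eq_zero_of_lt hk, Nat.choose_eq_zero_of_lt (by omega : n < k + 1)]
        simp
    have hk0 : ((k : ℚ) + 1) ≠ 0 := by positivity
    apply mul_right_cancel₀ hk0
    rw [h', ih, Pi_succ, pow_succ]
    field_simp
    ring

/-- the product identity behind `H_{(p-1)/2}` -/
theorem Pi_half (m : ℕ) : Pi (2 * (m : ℚ) + 1) m = 4 ^ m * ∏ j ∈ range m, (1 - (2 * (m : ℚ) + 1) * (1 / (2 * ((j : ℚ) + 1)))) := by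
  have h1 := choose_Pi (2 * m) m
  push_cast at h1
  have h2 : ∏ j ∈ range m, (1 - (2 * (m : ℚ) + 1) * (1 / (2 * ((j : ℚ) + 1)))) =
      (-1) ^ m * ((∏ j ∈ range m, (2 * (j : ℚ) + 1)) / ∏ j ∈ range m, (2 * ((j : ℚ) + 1))) := by
    have e : ∏ j ∈ range m, (2 * (j : ℚ) + 1) = ∏ j ∈ range m, (2 * ((m - 1 - j : ℕ) : ℚ) + 1) :=
      (prod_range_reflect (fun j => 2 * (j : ℚ) + 1) m).symm
    rw [e, ← prod_div_distrib]
    have e2 : ((-1 : ℚ)) ^ m = ∏ _j ∈ range m, (-1 : ℚ) := by rw [prod_const, card_range]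
    rw [e2, ← prod_mul_distrib]
    refine prod_congr rfl fun j hj => ?_
    have hj' := mem_range.1 hj
    rw [Nat.cast_sub (by omega), Nat.cast_sub (by omega)]
    have : ((j : ℚ) + 1) ≠ 0 := by positivity
    push_cast
    field_simp
    ring
  have h3 : ∀ n : ℕ, ((2 * n).choose n : ℚ) * ∏ j ∈ range n, (2 * ((j : ℚ) + 1)) = 4 ^ n * ∏ j ∈ range n, (2 * (j : ℚ) + 1) := by
    intro n
    induction n with
    | zero => simp
    | succ n ih =>
      rw [prod_range_succ, prod_range_succ]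
      have hc := Nat.succ_mul_centralBinom_succ n
      unfold Nat.centralBinom at hc
      have hc' : ((n : ℚ) + 1) * ((2 * (n + 1)).choose (n + 1) : ℚ) = 2 * (2 * n + 1) * ((2 * n).choose n : ℚ) := by
        exact_mod_cast hc
      rw [pow_succ]
      linear_combination (2 * ∏ j ∈ range n, (2 * ((j : ℚ) + 1))) * hc' + 4 * (2 * (n : ℚ) + 1) * ih
  have h30 : ∏ j ∈ range m, (2 * ((j : ℚ) + 1)) ≠ 0 := prod_ne_zero_iff.2 fun j _ => by positivity
  have h3m := h3 m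
  rw [h2]
  have hs : ((-1 : ℚ) ^ m) * (-1) ^ m = 1 := by rw [← mul_pow]; norm_num
  have h4 : Pi (2 * (m : ℚ) + 1) m = (-1) ^ m * ((2 * m).choose m : ℚ) := by
    rw [h1, ← mul_assoc, hs, one_mul]
  rw [h4]
  field_simp
  linear_combination h3m

variable {p : ℕ} [hp : Fact p.Prime]

theorem u1 {j : ℕ} (h : j + 1 < p) : U p ((j : ℚ) + 1) := by
  have := U_nat (p := p) (k := j + 1) (by omega) h
  push_cast at this
  exact this

theorem inv_mem {j : ℕ} (h : j + 1 < p) : 1 / ((j : ℚ) + 1) ∈ Zp p := mem_div (one_mem _) (u1 h)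

theorem hh_mem {n : ℕ} (h : n < p) : hh n ∈ Zp p :=
  sum_mem fun j hj => inv_mem (by have := mem_range.1 hj; omega)

theorem hq_mem {n : ℕ} (h : n < p) : hq n ∈ Zp p :=
  sum_mem fun j hj => mem_div (one_mem _) ((u1 (by have := mem_range.1 hj; omega)).pow 2)

omit hp in
theorem hh_HH : hh (p - 1) = HH p 1 := by
  unfold hh HH
  rw [sum_Ico_eq_sum_range]
  refine sum_congr rfl fun j _ => ?_
  push_cast
  rw [pow_one, add_comm]

omit hp in
theorem hq_HH : hq (p - 1) = HH p 2 := by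
  unfold hq HH
  rw [sum_Ico_eq_sum_range]
  refine sum_congr rfl fun j _ => ?_
  push_cast
  rw [add_comm (1 : ℚ)]

theorem H1_two (h3 : 3 < p) : I p 2 (HH p 1) := by
  have h1 := (H1_I h3).mono (by norm_num : 2 ≤ 5)
  have h2 := (I_p (p := p)).mul (H2_I h3 (two_dvd h3))
  have e2 : I p 2 ((p : ℚ) ^ 2 * HH p 3) := ⟨HH p 3, HH_mem 3, rfl⟩
  have e3 : I p 2 ((p : ℚ) ^ 3 * HH p 4) := ⟨p * HH p 4, mul_mem p_mem (HH_mem 4), by ring⟩
  apply (U2 h3).cancel
  refine (congrArg (I p 2) ?_).mp (((h1.sub h2).sub e2).sub e3)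
  ring

variable {m : ℕ}

/-- products to second order -/
theorem Pi_two {n : ℚ} (hn : I p 1 n) (k : ℕ) (hk : k < p) : EQ p 2 (Pi n k) (1 - n * hh k) := by
  induction k with
  | zero =>
    simp only [Pi, hh, range_zero, prod_empty, sum_empty, mul_zero, sub_zero]
    exact EQ.refl (one_mem _)
  | succ k ih =>
    have ih := ih (by omega)
    rw [Pi_succ, hh_succ]
    have hi := inv_mem (p := p) hk
    have hm : (1 - n / ((k : ℚ) + 1)) ∈ Zp p := by
      rw [div_eq_mul_one_div]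
      exact sub_mem (one_mem _) (mul_mem hn.mem hi)
    have h1 := ih.mul (EQ.refl (p := p) (k := 2) hm)
    refine h1.trans ⟨h1.2.1, ?_, ?_⟩
    · exact sub_mem (one_mem _) (mul_mem hn.mem (add_mem (hh_mem (by omega)) hi))
    · have : (1 - n * hh k) * (1 - n / ((k : ℚ) + 1)) - (1 - n * (hh k + 1 / ((k : ℚ) + 1))) =
          n * n * (hh k * (1 / ((k : ℚ) + 1))) := by ring
      rw [this]
      exact (hn.mul hn).mulR (mul_mem (hh_mem (by omega)) hi)

omit hp in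
theorem fold (hm : p = 2 * m + 1) (F : ℕ → ℚ) :
    ∑ j ∈ range (2 * m), F j = ∑ j ∈ range m, (F j + F (2 * m - 1 - j)) := by
  rw [two_mul, sum_range_add, sum_add_distrib]
  congr 1
  rw [← sum_range_reflect]
  refine sum_congr rfl fun j hj => ?_
  have := mem_range.1 hj
  congr 1
  omega

theorem hq_half (h3 : 3 < p) (hm : p = 2 * m + 1) : I p 1 (hq m) := by
  have h1 := H2_I h3 (two_dvd h3)
  rw [← hq_HH, show p - 1 = 2 * m by omega] at h1
  have h2 : hq (2 * m) = ∑ j ∈ range m, (1 / ((j : ℚ) + 1) ^ 2 + 1 / (((2 * m - 1 - j : ℕ) : ℚ) + 1) ^ 2) := by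
    unfold hq
    exact fold hm (fun j => 1 / ((j : ℚ) + 1) ^ 2)
  have h4 : I p 1 (hq (2 * m) - 2 * hq m) := by
    rw [h2]
    unfold hq
    rw [mul_sum, ← sum_sub_distrib]
    apply I.sum
    intro j hj
    have hj' := mem_range.1 hj
    have e1 : (((2 * m - 1 - j : ℕ) : ℚ) + 1) = p - ((j : ℚ) + 1) := by
      rw [Nat.cast_sub (by omega), Nat.cast_sub (by omega), hm]; push_cast; ring
    have uj := u1 (p := p) (j := j) (by omega)
    have uk := u1 (p := p) (j := 2 * m - 1 - j) (by omega)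
    rw [e1] at uk ⊢
    have hj0 := uj.1
    have hk0 := uk.1
    have e2 : 1 / ((j : ℚ) + 1) ^ 2 + 1 / ((p : ℚ) - ((j : ℚ) + 1)) ^ 2 - 2 * (1 / ((j : ℚ) + 1) ^ 2) =
        (p : ℚ) * ((2 * ((j : ℚ) + 1) - p) * ((((j : ℚ) + 1) ^ 2)⁻¹ * (((p : ℚ) - ((j : ℚ) + 1)) ^ 2)⁻¹)) := by
      field_simp
      ring
    rw [e2]
    refine (I_p (p := p)).mulR (mul_mem ?_ (mul_mem (uj.pow 2).2.2 (uk.pow 2).2.2))
    exact sub_mem (mul_mem (num_mem 2) uj.2.1) p_mem
  apply (U2 h3).cancel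
  refine (congrArg (I p 1) ?_).mp (h1.sub h4)
  ring

/-- the Fermat quotient -/
def q (p : ℕ) : ℚ := ((2 : ℚ) ^ (p - 1) - 1) / p

theorem pq : (p : ℚ) * q p = (2 : ℚ) ^ (p - 1) - 1 := by
  unfold q
  have := p_ne (p := p)
  field_simp

theorem q_mem (h3 : 3 < p) : q p ∈ Zp p := by
  have h := I_of_nat_modEq (p := p) (a := 2 ^ (p - 1)) (c := 1) (by
    have hc : Nat.Coprime 2 p := by
      rw [Nat.coprime_comm, Nat.Prime.coprime_iff_not_dvd hp.out]
      intro h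
      have := Nat.le_of_dvd (by norm_num) h
      omega
    have := Nat.ModEq.pow_totient hc
    rwa [Nat.totient_prime hp.out] at this)
  obtain ⟨y, hy, e⟩ := h
  have : q p = y := by
    unfold q
    push_cast at e
    rw [e, pow_one]
    have := p_ne (p := p)
    field_simp
  rw [this]; exact hy

theorem hh_half (h3 : 3 < p) (hm : p = 2 * m + 1) : EQ p 2 (hh m) (-2 * q p + p * q p ^ 2) := by
  have hqm := q_mem (p := p) h3
  have hhm : hh m ∈ Zp p := hh_mem (by omega)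
  have hq2 := hq_half h3 hm
  have hp0 := p_ne (p := p)
  have hpm : (p : ℚ) = 2 * m + 1 := by rw [hm]; push_cast; ring
  -- expansions of the two products
  obtain ⟨g1, hg1, e1⟩ := prod_exp3 (p := p) (range m) (x := fun j => 1 / ((j : ℚ) + 1))
    (fun j hj => inv_mem (by have := mem_range.1 hj; omega)) (p_mem) h3
  obtain ⟨g2, hg2, e2⟩ := prod_exp3 (p := p) (range m) (x := fun j => 1 / (2 * ((j : ℚ) + 1)))
    (fun j hj => mem_div (one_mem _) ((U2 h3).mul (u1 (by have := mem_range.1 hj; omega)))) (p_mem) h3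
  have s1 : ∑ i ∈ range m, 1 / ((i : ℚ) + 1) = hh m := rfl
  have s2 : ∑ i ∈ range m, (1 / ((i : ℚ) + 1)) ^ 2 = hq m := by
    unfold hq; exact sum_congr rfl fun j _ => by rw [div_pow, one_pow]
  have s3 : ∑ i ∈ range m, 1 / (2 * ((i : ℚ) + 1)) = hh m / 2 := by
    unfold hh; rw [sum_div]; exact sum_congr rfl fun j _ => by rw [div_div, mul_comm]
  have s4 : ∑ i ∈ range m, (1 / (2 * ((i : ℚ) + 1))) ^ 2 = hq m / 4 := by
    unfold hq; rw [sum_div]; refine sum_congr rfl fun j _ => ?_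
    have : ((j : ℚ) + 1) ≠ 0 := by positivity
    field_simp; norm_num
  rw [s1, s2] at e1
  rw [s3, s4] at e2
  have hP := Pi_half m
  rw [← hpm] at hP
  have hP1 : Pi (p : ℚ) m = ∏ i ∈ range m, (1 - (p : ℚ) * (1 / ((i : ℚ) + 1))) := by
    unfold Pi; exact prod_congr rfl fun j _ => by ring
  rw [hP1, e1, e2] at hP
  have h4 : (4 : ℚ) ^ m = 1 + p * q p := by
    rw [pq, show p - 1 = 2 * m by omega, pow_mul]; norm_num
  rw [h4] at hP
  set h := hh m with hdef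
  set t := hq m with tdef
  set Q := q p with Qdef
  have u2 := U2 (p := p) h3
  have i2 : (2 : ℚ)⁻¹ ∈ Zp p := u2.2.2
  -- first order
  have f1 : I p 1 (h + 2 * Q) := by
    have : h + 2 * Q = p * (Q * h + (3 / 4) * (h ^ 2 - t) - 2 * Q * p * ((h / 2) ^ 2 - t / 4) / 2
        + 2 * p * g1 - 2 * p * g2 - 2 * Q * p ^ 2 * g2) := by
      apply mul_left_cancel₀ hp0
      linear_combination (-2) * hP
    rw [this]
    have i4 : (3 / 4 : ℚ) ∈ Zp p := by
      rw [show (3 / 4 : ℚ) = 3 * (2 : ℚ)⁻¹ * (2 : ℚ)⁻¹ by norm_num]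
      exact mul_mem (mul_mem (num_mem 3) i2) i2
    have i5 : ((h / 2) ^ 2 - t / 4) / 2 ∈ Zp p := by
      rw [show ((h / 2) ^ 2 - t / 4) / 2 = (h ^ 2 - t) * (2 : ℚ)⁻¹ * (2 : ℚ)⁻¹ * (2 : ℚ)⁻¹ by ring]
      exact mul_mem (mul_mem (mul_mem (sub_mem (pow_mem hhm 2) hq2.mem) i2) i2) i2
    refine (I_p (p := p)).mulR ?_
    refine sub_mem (sub_mem (add_mem (sub_mem (add_mem (mul_mem hqm hhm) (mul_mem i4 (sub_mem (pow_mem hhm 2) hq2.mem))) ?_) ?_) ?_) ?_
    · rw [mul_div_assoc]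
      exact mul_mem (mul_mem (mul_mem (num_mem 2) hqm) p_mem) i5
    · exact mul_mem (mul_mem (num_mem 2) p_mem) hg1
    · exact mul_mem (mul_mem (num_mem 2) p_mem) hg2
    · exact mul_mem (mul_mem (mul_mem (num_mem 2) hqm) (pow_mem p_mem 2)) hg2
  refine ⟨hhm, add_mem (mul_mem (by exact_mod_cast int_mem (p := p) (-2)) hqm) (mul_mem p_mem (pow_mem hqm 2)), ?_⟩
  have key : h - (-2 * Q + p * Q ^ 2) = p * ((Q + 3 / 4 * (h - 2 * Q)) * (h + 2 * Q) - (3 / 4) * t) +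
      p ^ 2 * (- Q * ((h ^ 2 - t) * (2 : ℚ)⁻¹ * (2 : ℚ)⁻¹) + 2 * g1 - 2 * g2 - 2 * Q * p * g2) := by
    apply mul_left_cancel₀ hp0
    linear_combination (-2) * hP
  rw [key]
  have i4 : (3 / 4 : ℚ) ∈ Zp p := by
    rw [show (3 / 4 : ℚ) = 3 * (2 : ℚ)⁻¹ * (2 : ℚ)⁻¹ by norm_num]
    exact mul_mem (mul_mem (num_mem 3) i2) i2
  refine I.add ?_ ?_
  · refine I_p_mul_iff.2 ?_
    refine (f1.mulL ?_).sub (hq2.mulL i4)
    exact add_mem hqm (mul_mem i4 (sub_mem hhm (mul_mem (num_mem 2) hqm)))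
  · refine ⟨_, ?_, rfl⟩
    refine sub_mem (sub_mem (add_mem ?_ ?_) ?_) ?_
    · exact mul_mem (neg_mem hqm) (mul_mem (mul_mem (sub_mem (pow_mem hhm 2) hq2.mem) i2) i2)
    · exact mul_mem (num_mem 2) hg1
    · exact mul_mem (num_mem 2) hg2
    · exact mul_mem (mul_mem (mul_mem (num_mem 2) hqm) p_mem) hg2

/-- splitting an alternating sum -/
theorem alt_split (a : ℕ → ℚ) (n : ℕ) : ∑ j ∈ range (2 * n), (-1) ^ j * a j =
    ∑ j ∈ range (2 * n), a j - 2 * ∑ i ∈ range n, a (2 * i + 1) := by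
  induction n with
  | zero => simp
  | succ n ih =>
    rw [show 2 * (n + 1) = 2 * n + 1 + 1 by ring, sum_range_succ, sum_range_succ, ih, sum_range_succ, sum_range_succ,
      sum_range_succ]
    rw [pow_succ, pow_mul]
    norm_num
    ring

theorem XX (h3 : 3 < p) (hm : p = 2 * m + 1) :
    I p 1 (∑ i ∈ range m, hh (2 * i + 1) / ((i : ℚ) + 1) - q p ^ 2) := by
  have hp0 := p_ne (p := p)
  have hqm := q_mem (p := p) h3
  have hhalf := hh_half h3 hm
  have hpm : (p : ℚ) = 2 * m + 1 := by rw [hm]; push_cast; ring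
  -- exact sum of binomials
  have hb : ∑ j ∈ range (2 * m), (p.choose (j + 1) : ℚ) = 2 * (p * q p) := by
    have h1 := Nat.sum_range_choose p
    have h2 := congrArg (Nat.cast : ℕ → ℚ) h1
    push_cast at h2
    rw [sum_range_succ, show p = 2 * m + 1 from hm, sum_range_succ', ← show p = 2 * m + 1 from hm] at h2
    rw [pq]
    simp only [Nat.choose_self, Nat.choose_zero_right] at h2
    have : (2 : ℚ) ^ p = 2 * 2 ^ (p - 1) := by
      rw [← pow_succ', Nat.sub_add_cancel hp.out.one_le]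
    rw [this] at h2
    push_cast at h2
    linear_combination h2
  have ht : ∀ j, (p.choose (j + 1) : ℚ) = p * ((-1) ^ j * (Pi p j / ((j : ℚ) + 1))) := by
    intro j
    have h1 := Nat.add_one_mul_choose_eq (p - 1) j
    rw [Nat.sub_add_cancel hp.out.one_le] at h1
    have h2 : (p : ℚ) * ((p - 1).choose j : ℚ) = (p.choose (j + 1) : ℚ) * ((j : ℚ) + 1) := by exact_mod_cast h1
    rw [choose_Pi (p - 1) j, Nat.cast_sub hp.out.one_le] at h2
    push_cast at h2
    rw [sub_add_cancel] at h2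
    have : ((j : ℚ) + 1) ≠ 0 := by positivity
    field_simp
    linear_combination (-1) * h2
  have h2q : 2 * q p = ∑ j ∈ range (2 * m), (-1) ^ j * (Pi p j / ((j : ℚ) + 1)) := by
    apply mul_left_cancel₀ hp0
    rw [mul_sum, ← sum_congr rfl fun j _ => ht j, hb]
    ring
  have hE : EQ p 2 (∑ j ∈ range (2 * m), (-1) ^ j * (Pi p j / ((j : ℚ) + 1)))
      (∑ j ∈ range (2 * m), (-1) ^ j * (1 / ((j : ℚ) + 1) - p * (hh j / ((j : ℚ) + 1)))) := by
    apply EQ.sum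
    intro j hj
    have hj' := mem_range.1 hj
    have h1 := Pi_two (I_p (p := p)) j (by omega)
    have hi := inv_mem (p := p) (j := j) (by omega)
    have h2 := (EQ.refl (p := p) (k := 2) (pow_mem (neg_mem (one_mem (Zp p))) j)).mul
      (h1.mul (EQ.refl (p := p) (k := 2) hi))
    refine (congrArg₂ (EQ p 2) ?_ ?_).mp h2
    · ring
    · ring
  rw [← h2q] at hE
  have e1 : ∑ j ∈ range (2 * m), (-1) ^ j * (1 / ((j : ℚ) + 1) - p * (hh j / ((j : ℚ) + 1))) =
      (hh (2 * m) - hh m) - p * ((hh (2 * m) ^ 2 - hq (2 * m)) / 2 -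
        ∑ i ∈ range m, hh (2 * i + 1) / ((i : ℚ) + 1)) := by
    have a1 := alt_split (fun j => 1 / ((j : ℚ) + 1)) m
    have a2 := alt_split (fun j => hh j / ((j : ℚ) + 1)) m
    have b1 : 2 * ∑ i ∈ range m, 1 / (((2 * i + 1 : ℕ) : ℚ) + 1) = hh m := by
      unfold hh
      rw [mul_sum]
      refine sum_congr rfl fun i _ => ?_
      push_cast
      have : ((i : ℚ) + 1) ≠ 0 := by positivity
      have h2 : (2 * (i : ℚ) + 1 + 1) ≠ 0 := by positivity
      field_simp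
      ring
    have b2 : 2 * ∑ i ∈ range m, hh (2 * i + 1) / (((2 * i + 1 : ℕ) : ℚ) + 1) =
        ∑ i ∈ range m, hh (2 * i + 1) / ((i : ℚ) + 1) := by
      rw [mul_sum]
      refine sum_congr rfl fun i _ => ?_
      push_cast
      have : ((i : ℚ) + 1) ≠ 0 := by positivity
      have h2 : (2 * (i : ℚ) + 1 + 1) ≠ 0 := by positivity
      field_simp
      ring
    have b3 : ∑ j ∈ range (2 * m), 1 / ((j : ℚ) + 1) = hh (2 * m) := rfl
    rw [b1, b3] at a1
    rw [b2, sum_hh] at a2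
    have e2 : ∑ j ∈ range (2 * m), (-1) ^ j * (1 / ((j : ℚ) + 1) - p * (hh j / ((j : ℚ) + 1))) =
        ∑ j ∈ range (2 * m), (-1) ^ j * (1 / ((j : ℚ) + 1)) -
        p * ∑ j ∈ range (2 * m), (-1) ^ j * (hh j / ((j : ℚ) + 1)) := by
      rw [mul_sum, ← sum_sub_distrib]
      exact sum_congr rfl fun j _ => by ring
    rw [e2, a1, a2]
  rw [e1] at hE
  have k1 : I p 2 (hh (2 * m)) := by
    rw [show 2 * m = p - 1 by omega, hh_HH]; exact H1_two h3
  have k2 : I p 1 (hq (2 * m)) := by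
    rw [show 2 * m = p - 1 by omega, hq_HH]; exact H2_I h3 (two_dvd h3)
  have u2 := U2 (p := p) h3
  have i2 : (2 : ℚ)⁻¹ ∈ Zp p := u2.2.2
  have k3 : I p 2 ((p : ℚ) * ((hh (2 * m) ^ 2 - hq (2 * m)) / 2)) := by
    have : (p : ℚ) * ((hh (2 * m) ^ 2 - hq (2 * m)) / 2) =
      p * ((hh (2 * m) * hh (2 * m) - hq (2 * m)) * (2 : ℚ)⁻¹) := by ring
    rw [this]
    refine I_p_mul_iff.2 (I.mulR ?_ i2)
    exact ((k1.mono (by norm_num : 1 ≤ 2)).mulR k1.mem).sub k2
  have k4 := hE.2.2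
  set X := ∑ i ∈ range m, hh (2 * i + 1) / ((i : ℚ) + 1) with hX
  have k5 : I p 2 ((p : ℚ) * (X - q p ^ 2)) := by
    have := ((hhalf.2.2.add k4.neg).add k1.neg).add k3
    refine (congrArg (I p 2) ?_).mp ((((k4.neg).add hhalf.2.2).sub k1).add k3)
    ring
  exact I_p_mul_iff.1 k5

end Pool.Agent.U853.DM
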