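import Pool.Agent.U853.DM.Closed
import Pool.Agent.U853.DM.Harm

set_option autoImplicit false

/-!
The sum `V p` modulo `p⁶`.
-/

namespace Pool.Agent.U853.DM

open Finset Pool.Agent.R439.PL Pool.Agent.T2H53.HB Pool.Agent.R499.Domb

theorem cc_formula (p i : ℕ) (hi : i + 1 ≤ p) :
    ((i : ℚ) + 1) * c (i + 1) * c (p - (i + 1)) * Pi (2 * p) (2 * i + 1) = -(p * c p) * Pi p i ^ 2 := by
  induction i with
  | zero =>
    obtain ⟨r, rfl⟩ : ∃ r, p = r + 1 := ⟨p - 1, by omega⟩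
    have h := c_succ r
    have h1 : c 1 = 2 := by norm_num [c, Nat.centralBinom]
    simp only [Nat.cast_zero, zero_add, h1, mul_zero, Pi, prod_range_one, range_zero, prod_empty,
      Nat.add_sub_cancel]
    push_cast
    linear_combination h
  | succ i ih =>
    have ih := ih (by omega)
    obtain ⟨j, hj⟩ : ∃ j, p = j + (i + 2) := ⟨p - (i + 2), by omega⟩
    have e1 : p - (i + 1) = j + 1 := by omega
    have e2 : p - (i + 1 + 1) = j := by omega
    have hp : (p : ℚ) = j + (i + 2) := by rw [hj]; push_cast; ring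
    rw [e1] at ih
    rw [e2]
    have h1 := c_succ j
    have h2 := c_succ (i + 1)
    have e3 : Pi (2 * p) (2 * (i + 1) + 1) = Pi (2 * p) (2 * i + 1) * (1 - p / ((i : ℚ) + 1)) *
        (1 - 2 * p / (2 * (i : ℚ) + 3)) := by
      rw [show 2 * (i + 1) + 1 = (2 * i + 1) + 1 + 1 by ring, Pi_succ, Pi_succ]
      have a1 : ((i : ℚ) + 1) ≠ 0 := by positivity
      have a2 : (2 * (i : ℚ) + 3) ≠ 0 := by positivity
      have a3 : (2 * (i : ℚ) + 1 + 1) ≠ 0 := by positivity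
      have a4 : (2 * (i : ℚ) + 1 + 1 + 1) ≠ 0 := by positivity
      push_cast
      field_simp
      ring
    rw [e3, Pi_succ (p : ℚ) i]
    push_cast at h2 ⊢
    have a1 : ((i : ℚ) + 1) ≠ 0 := by positivity
    have a2 : (2 * (i : ℚ) + 3) ≠ 0 := by positivity
    have a5 : (2 * (j : ℚ) + 1) ≠ 0 := by positivity
    -- express `c j` and `(i+2) c (i+2)`
    have h1' : c j = ((j : ℚ) + 1) * c (j + 1) / (2 * (2 * j + 1)) := by
      rw [eq_div_iff (by positivity)]; linear_combination (-1) * h1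
    have h3 : ((i : ℚ) + 1 + 1) * c (i + 1 + 1) = 2 * (2 * (i : ℚ) + 3) * c (i + 1) := by
      linear_combination h2
    have key : (2 * (i : ℚ) + 3) * (1 - 2 * p / (2 * (i : ℚ) + 3)) = -(2 * (j : ℚ) + 1) := by
      field_simp
      rw [hp]; ring
    have key2 : ((j : ℚ) + 1) = -(((i : ℚ) + 1) * (1 - p / ((i : ℚ) + 1))) := by
      field_simp
      rw [hp]; ring
    calc ((i : ℚ) + 1 + 1) * c (i + 1 + 1) * c j *
          (Pi (2 * p) (2 * i + 1) * (1 - p / ((i : ℚ) + 1)) * (1 - 2 * p / (2 * (i : ℚ) + 3)))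
        = 2 * c (i + 1) * c j * Pi (2 * p) (2 * i + 1) * (1 - p / ((i : ℚ) + 1)) *
          ((2 * (i : ℚ) + 3) * (1 - 2 * p / (2 * (i : ℚ) + 3))) := by rw [h3]; ring
      _ = 2 * c (i + 1) * (((j : ℚ) + 1) * c (j + 1) / (2 * (2 * j + 1))) * Pi (2 * p) (2 * i + 1) * (1 - p / ((i : ℚ) + 1)) *
          (-(2 * (j : ℚ) + 1)) := by rw [key, ← h1']
      _ = -((j : ℚ) + 1) * (c (i + 1) * c (j + 1) * Pi (2 * p) (2 * i + 1)) * (1 - p / ((i : ℚ) + 1)) := by
          field_simp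
      _ = (((i : ℚ) + 1) * c (i + 1) * c (j + 1) * Pi (2 * p) (2 * i + 1)) * (1 - p / ((i : ℚ) + 1)) ^ 2 := by
          rw [key2]; ring
      _ = _ := by rw [ih]; ring

variable {p m : ℕ} [hp : Fact p.Prime]

/-- the terms -/
def xx (p i : ℕ) : ℚ := ((p - 1).choose i : ℚ) * ((p - 1).choose (i + 1) : ℚ) * c (i + 1) * c (p - (i + 1)) / p

theorem V_terms (hm : p = 2 * m + 1) : V p = (p : ℚ) ^ 4 * ∑ i ∈ range m, xx p i := by
  have hp0 := p_ne (p := p)
  rw [V_closed p hp.out.one_le, Finset.Nat.sum_antidiagonal_eq_sum_range_succ_mk]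
  have h1 : ∑ k ∈ range p.succ, (k : ℚ) * ((p - k : ℕ) : ℚ) * t k (p - k) =
      ∑ i ∈ range (2 * m), ((i + 1 : ℕ) : ℚ) * ((p - (i + 1) : ℕ) : ℚ) * t (i + 1) (p - (i + 1)) := by
    rw [sum_range_succ, Nat.sub_self]
    rw [show p = 2 * m + 1 from hm, sum_range_succ']
    simp
  simp only at h1 ⊢
  rw [h1, fold hm]
  have h2 : ∀ i, i < 2 * m → ((i + 1 : ℕ) : ℚ) * ((p - (i + 1) : ℕ) : ℚ) * t (i + 1) (p - (i + 1)) =
      (p : ℚ) ^ 3 * xx p i := by
    intro i hi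
    have a1 := Nat.add_one_mul_choose_eq (p - 1) i
    rw [Nat.sub_add_cancel hp.out.one_le] at a1
    have a2 := Nat.choose_mul_succ_eq (p - 1) (i + 1)
    rw [Nat.sub_add_cancel hp.out.one_le] at a2
    have a1' : (p : ℚ) * ((p - 1).choose i : ℚ) = (p.choose (i + 1) : ℚ) * ((i : ℚ) + 1) := by exact_mod_cast a1
    have a2' : ((p - 1).choose (i + 1) : ℚ) * p = (p.choose (i + 1) : ℚ) * ((p - (i + 1) : ℕ) : ℚ) := by
      exact_mod_cast a2
    unfold t xx
    rw [show p - (i + 1) + (i + 1) = p by omega]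
    have a3 : p.choose (p - (i + 1)) = p.choose (i + 1) := Nat.choose_symm (by omega)
    rw [a3]
    push_cast
    have : (p : ℚ) ^ 3 * (((p - 1).choose i : ℚ) * ((p - 1).choose (i + 1) : ℚ) * c (i + 1) * c (p - (i + 1)) / p) =
        (p * ((p - 1).choose i : ℚ)) * (((p - 1).choose (i + 1) : ℚ) * p) * (c (i + 1) * c (p - (i + 1))) := by
      field_simp
    rw [this, a1', a2']
    ring
  have h3 : ∀ i ∈ range m, ((i + 1 : ℕ) : ℚ) * ((p - (i + 1) : ℕ) : ℚ) * t (i + 1) (p - (i + 1)) +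
      ((2 * m - 1 - i + 1 : ℕ) : ℚ) * ((p - (2 * m - 1 - i + 1) : ℕ) : ℚ) * t (2 * m - 1 - i + 1) (p - (2 * m - 1 - i + 1)) =
      2 * ((p : ℚ) ^ 3 * xx p i) := by
    intro i hi
    have hi' := mem_range.1 hi
    rw [show 2 * m - 1 - i + 1 = p - (i + 1) by omega, show p - (p - (i + 1)) = i + 1 by omega, t_symm (p - (i + 1)) (i + 1)]
    rw [← h2 i (by omega)]
    ring
  rw [sum_congr rfl h3, mul_sum, mul_sum]
  refine sum_congr rfl fun i _ => ?_
  ring

theorem twop : I p 1 (2 * (p : ℚ)) := (I_p (p := p)).mulL (num_mem 2)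

theorem cp_two (h3 : 3 < p) : EQ p 2 (c p) 2 := by
  have h1 := choose_Pi (2 * p - 1) (p - 1)
  have hodd := odd_of h3
  have hev : Even (p - 1) := Nat.even_iff.2 (by omega)
  have h1p := hp.out.one_le
  rw [hev.neg_one_pow, one_mul, Nat.cast_sub (by omega)] at h1
  push_cast at h1
  rw [sub_add_cancel] at h1
  have h2 : c p = 2 * ((2 * p - 1).choose (p - 1) : ℚ) := by
    unfold c Nat.centralBinom
    have := Nat.add_one_mul_choose_eq (2 * p - 1) (p - 1)
    rw [Nat.sub_add_cancel (by omega : 1 ≤ 2 * p), Nat.sub_add_cancel h1p] at this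
    have h' : (2 * (p : ℚ)) * ((2 * p - 1).choose (p - 1) : ℚ) = ((2 * p).choose p : ℚ) * p := by exact_mod_cast this
    have hp0 := p_ne (p := p)
    apply mul_right_cancel₀ hp0
    linear_combination (-1) * h'
  rw [h2, h1]
  have h4 := Pi_two (twop (p := p)) (p - 1) (by omega)
  have h5 : EQ p 2 (1 - 2 * (p : ℚ) * hh (p - 1)) 1 := by
    have k : I p 2 (2 * (p : ℚ) * hh (p - 1)) := by
      rw [hh_HH]
      exact ((H1_two h3).mulL (mul_mem (num_mem 2) p_mem))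
    refine ⟨sub_mem (one_mem _) k.mem, one_mem _, ?_⟩
    rw [show 1 - 2 * (p : ℚ) * hh (p - 1) - 1 = -(2 * (p : ℚ) * hh (p - 1)) by ring]
    exact k.neg
  have h6 := (EQ.refl (p := p) (k := 2) (num_mem 2)).mul (h4.trans h5)
  rwa [mul_one] at h6

theorem xx_eq (h3 : 3 < p) (hm : p = 2 * m + 1) (i : ℕ) (hi : i < m) : EQ p 2 (xx p i)
    (2 * (1 / ((i : ℚ) + 1)) * (1 - p * (1 / ((i : ℚ) + 1)) - 4 * p * hh i + 2 * p * hh (2 * i + 1))) := by
  have hp0 := p_ne (p := p)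
  have h1p := hp.out.one_le
  have hcast : (((p - 1 : ℕ) : ℚ) + 1) = p := by rw [Nat.cast_sub h1p]; push_cast; ring
  have c1 := choose_Pi (p - 1) i
  have c2 := choose_Pi (p - 1) (i + 1)
  rw [hcast] at c1 c2
  rw [Pi_succ] at c2
  have hT := Pi_two (twop (p := p)) (2 * i + 1) (by omega)
  have hP := Pi_two (I_p (p := p)) i (by omega)
  have hf := cc_formula p i (by omega)
  have hcp := cp_two h3
  have ha := inv_mem (p := p) (j := i) (by omega)
  have hh1 : hh i ∈ Zp p := hh_mem (by omega)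
  have hh2' : hh (2 * i + 1) ∈ Zp p := hh_mem (by omega)
  have a1 : ((i : ℚ) + 1) ≠ 0 := by positivity
  set T := Pi (2 * (p : ℚ)) (2 * i + 1) with hTd
  set P := Pi (p : ℚ) i with hPd
  set a := 1 / ((i : ℚ) + 1) with had
  set h := hh i with hhd
  set h' := hh (2 * i + 1) with hhd'
  have haa : ((i : ℚ) + 1) * a = 1 := by rw [had]; field_simp
  have hpa : (p : ℚ) / ((i : ℚ) + 1) = p * a := by rw [had]; ring
  rw [hpa] at c2
  -- T is a unit
  have hTone : EQ p 1 1 T := by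
    refine ⟨one_mem _, hT.1, ?_⟩
    have : 1 - T = (2 * p) * h' - (T - (1 - 2 * p * h')) := by ring
    rw [this]
    exact ((twop (p := p)).mulR hh2').sub (hT.2.2.mono (by norm_num))
  have hTu : U p T := hTone.unit one_pos U.one
  -- exact
  have hs : ((-1 : ℚ) ^ i) * (-1) ^ i = 1 := by rw [← mul_pow]; norm_num
  have ex : xx p i * T = a * c p * (1 - p * a) * P ^ 4 := by
    unfold xx
    rw [c1, c2]
    apply mul_left_cancel₀ a1
    have e1 : ((i : ℚ) + 1) * ((-1) ^ i * P * ((-1) ^ (i + 1) * (P * (1 - p * a))) * c (i + 1) * c (p - (i + 1)) / p * T) =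
        -(P ^ 2 * (1 - p * a)) * ((((i : ℚ) + 1) * c (i + 1) * c (p - (i + 1)) * T) / p) * (((-1 : ℚ) ^ i) * (-1) ^ i) := by
      rw [pow_succ]; ring
    rw [e1, hs, hf]
    have e2 : ((i : ℚ) + 1) * (a * c p * (1 - p * a) * P ^ 4) = (((i : ℚ) + 1) * a) * (c p * (1 - p * a) * P ^ 4) := by ring
    rw [e2, haa]
    field_simp
  have hxm : xx p i ∈ Zp p := by
    have : xx p i = (a * c p * (1 - p * a) * P ^ 4) * T⁻¹ := by
      rw [← ex, mul_assoc, mul_inv_cancel₀ hTu.1, mul_one]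
    rw [this]
    exact mul_mem (mul_mem (mul_mem (mul_mem ha hcp.1) (sub_mem (one_mem _) (mul_mem p_mem ha))) (pow_mem hP.1 4)) hTu.2.2
  have hym : 2 * a * (1 - p * a - 4 * p * h + 2 * p * h') ∈ Zp p :=
    mul_mem (mul_mem (num_mem 2) ha) (add_mem (sub_mem (sub_mem (one_mem _) (mul_mem p_mem ha))
      (mul_mem (mul_mem (num_mem 4) p_mem) hh1)) (mul_mem (mul_mem (num_mem 2) p_mem) hh2'))
  refine ⟨hxm, hym, ?_⟩
  apply hTu.cancel
  have k1 : EQ p 2 (a * c p * (1 - p * a) * P ^ 4) (a * 2 * (1 - p * a) * (1 - p * h) ^ 4) := by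
    have := ((EQ.refl (p := p) (k := 2) ha).mul hcp).mul
      (EQ.refl (p := p) (k := 2) (sub_mem (one_mem _) (mul_mem p_mem ha)))
    exact this.mul (hP.pow 4)
  have k2 : EQ p 2 ((2 * a * (1 - p * a - 4 * p * h + 2 * p * h')) * T)
      ((2 * a * (1 - p * a - 4 * p * h + 2 * p * h')) * (1 - 2 * p * h')) :=
    (EQ.refl (p := p) (k := 2) hym).mul hT
  have k3 : I p 2 (a * 2 * (1 - p * a) * (1 - p * h) ^ 4 -
      (2 * a * (1 - p * a - 4 * p * h + 2 * p * h')) * (1 - 2 * p * h')) := by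
    refine ⟨2 * a * ((6 * h ^ 2 - 4 * p * h ^ 3 + p ^ 2 * h ^ 4) * (1 - p * a) + 4 * a * h - 2 * a * h' -
      8 * h * h' + 4 * h' ^ 2), ?_, by ring⟩
    refine mul_mem (mul_mem (num_mem 2) ha) ?_
    refine add_mem (sub_mem (sub_mem (add_mem (mul_mem ?_ (sub_mem (one_mem _) (mul_mem p_mem ha))) ?_) ?_) ?_) ?_
    · exact add_mem (sub_mem (mul_mem (num_mem 6) (pow_mem hh1 2)) (mul_mem (mul_mem (num_mem 4) p_mem) (pow_mem hh1 3)))
        (mul_mem (pow_mem p_mem 2) (pow_mem hh1 4))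
    · exact mul_mem (mul_mem (num_mem 4) ha) hh1
    · exact mul_mem (mul_mem (num_mem 2) ha) hh2'
    · exact mul_mem (mul_mem (num_mem 8) hh1) hh2'
    · exact mul_mem (num_mem 4) (pow_mem hh2' 2)
  refine (congrArg (I p 2) ?_).mp ((k1.2.2.add k3).sub k2.2.2)
  rw [← ex]
  ring

/-- the sum of the terms -/
theorem W_eq (h3 : 3 < p) (hm : p = 2 * m + 1) :
    I p 2 (∑ i ∈ range m, xx p i - (1 + p * q p) ^ 4 * (-4 * q p + 6 * p * q p ^ 2)) := by
  have h1 : EQ p 2 (∑ i ∈ range m, xx p i) (∑ i ∈ range m,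
      2 * (1 / ((i : ℚ) + 1)) * (1 - p * (1 / ((i : ℚ) + 1)) - 4 * p * hh i + 2 * p * hh (2 * i + 1))) :=
    EQ.sum fun i hi => xx_eq h3 hm i (mem_range.1 hi)
  have h2 : ∑ i ∈ range m,
      2 * (1 / ((i : ℚ) + 1)) * (1 - p * (1 / ((i : ℚ) + 1)) - 4 * p * hh i + 2 * p * hh (2 * i + 1)) =
      2 * hh m - 2 * p * hq m - 8 * p * ∑ i ∈ range m, hh i / ((i : ℚ) + 1) +
        4 * p * ∑ i ∈ range m, hh (2 * i + 1) / ((i : ℚ) + 1) := by
    unfold hq
    rw [show hh m = ∑ j ∈ range m, 1 / ((j : ℚ) + 1) from rfl, mul_sum, mul_sum, mul_sum, mul_sum,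
      ← sum_sub_distrib, ← sum_sub_distrib, ← sum_add_distrib]
    refine sum_congr rfl fun i _ => ?_
    have : ((i : ℚ) + 1) ≠ 0 := by positivity
    field_simp
    ring
  rw [h2, sum_hh] at h1
  have hX := XX h3 hm
  have hH := hh_half h3 hm
  have ht := hq_half h3 hm
  have hqm := q_mem (p := p) h3
  set X := ∑ i ∈ range m, hh (2 * i + 1) / ((i : ℚ) + 1) with hXd
  set H := hh m with hHd
  set t' := hq m with htd
  set Q := q p with hQd
  have hHm : H ∈ Zp p := hH.1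
  have f1 : I p 1 (H + 2 * Q) := by
    have e : H + 2 * Q = (H - (-2 * Q + p * Q ^ 2)) + p * Q ^ 2 := by ring
    rw [e]
    exact (hH.2.2.mono (by norm_num)).add ((I_p (p := p)).mulR (pow_mem hqm 2))
  have k1 : I p 2 (2 * H - 2 * p * t' - 8 * p * ((H ^ 2 - t') / 2) + 4 * p * X - (-4 * Q - 10 * p * Q ^ 2)) := by
    have e : 2 * H - 2 * p * t' - 8 * p * ((H ^ 2 - t') / 2) + 4 * p * X - (-4 * Q - 10 * p * Q ^ 2) =
        2 * (H - (-2 * Q + p * Q ^ 2)) + p * (2 * t' - 4 * (H - 2 * Q) * (H + 2 * Q) + 4 * (X - Q ^ 2)) := by ring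
    rw [e]
    refine (hH.2.2.mulL (num_mem 2)).add (I_p_mul_iff.2 ?_)
    refine ((ht.mulL (num_mem 2)).sub (f1.mulL ?_)).add (hX.mulL (num_mem 4))
    exact mul_mem (num_mem 4) (sub_mem hHm (mul_mem (num_mem 2) hqm))
  have k2 : I p 2 ((1 + p * Q) ^ 4 * (-4 * Q + 6 * p * Q ^ 2) - (-4 * Q - 10 * p * Q ^ 2)) := by
    refine ⟨Q * Q ^ 2 * (24 + (6 + 4 * (p * Q) + (p * Q) ^ 2) * (-4 + 6 * (p * Q))), ?_, by ring⟩
    have hz : (p : ℚ) * Q ∈ Zp p := mul_mem p_mem hqm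
    refine mul_mem (mul_mem hqm (pow_mem hqm 2)) (add_mem (num_mem 24) (mul_mem ?_ ?_))
    · exact add_mem (add_mem (num_mem 6) (mul_mem (num_mem 4) hz)) (pow_mem hz 2)
    · exact add_mem (by exact_mod_cast int_mem (p := p) (-4)) (mul_mem (num_mem 6) hz)
  refine (congrArg (I p 2) ?_).mp ((h1.2.2.add k1).sub k2)
  ring

end Pool.Agent.U853.DM
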